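import Pool.Agent.Lib.lead.CXGraphRed

set_option autoImplicit false

namespace Pool.Agent.Results.MP_679d83_lc.Full

open Pool.Agent.Lib.CX

/-- The triangle condition. -/
def Tri {V : Type} (G : SimpleGraph V) : Prop :=
  ∀ S : Set V, Maximal G.IsIndepSet S → ∀ u v, u ∉ S → v ∉ S → G.Adj u v →
    ∃ s ∈ S, G.Adj s u ∧ G.Adj s v

lemma max_iff {V : Type} (G : SimpleGraph V) (S : Set V) : Maximal G.IsIndepSet S ↔
    (∀ a ∈ S, ∀ b ∈ S, ¬ G.Adj a b) ∧ ∀ v ∉ S, ∃ s ∈ S, G.Adj s v := by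
  have h : ∀ T : Set V, G.IsIndepSet T ↔ ∀ a ∈ T, ∀ b ∈ T, ¬ G.Adj a b := fun T =>
    ⟨fun h a ha b hb e => h ha hb e.ne e, fun h a ha b hb _ => h a ha b hb⟩
  rw [Maximal, h]
  refine and_congr_right fun h1 => ⟨fun h2 v hv => ?_, fun h2 T hT hS v hv => ?_⟩
  · by_contra h3
    push Not at h3
    refine hv (h2 ((h (insert v S)).2 ?_) (Set.subset_insert v S) (Set.mem_insert v S))
    rintro a (rfl | ha) b (rfl | hb)
    exacts [G.irrefl, fun e => h3 b hb e.symm, h3 a ha, h1 a ha b hb]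
  · by_contra h3
    obtain ⟨s, h4, h5⟩ := h2 v h3
    exact (h T).1 hT s (hS h4) v hv h5

def TriOn {V : Type} (P : V → Prop) (R : V → V → Prop) : Prop :=
  ∀ S : V → Prop, (∀ a, S a → P a) → (∀ a b, S a → S b → ¬ R a b) →
    (∀ v, P v → ¬ S v → ∃ s, S s ∧ R s v) →
    ∀ u v, P u → P v → ¬ S u → ¬ S v → R u v → ∃ s, S s ∧ R s u ∧ R s v

lemma tri_mk {V : Type} [DecidableEq V] (vs : List V) (es : List (V × V)) (R : V → V → Prop)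
    (h : ∀ p ∈ vs, ∀ q ∈ vs, R p q ↔ p ≠ q ∧ ((p, q) ∈ es ∨ (q, p) ∈ es)) :
    Tri (mkGr vs es).G ↔ TriOn (· ∈ vs) R := by
  let e := mkGrIso vs es
  have ha : ∀ a b, (mkGr vs es).G.Adj a b ↔ R (e a).1 (e b).1 := fun a b => by
    rw [← e.map_rel_iff, h _ (e a).2 _ (e b).2]
    simp
  simp only [Tri, max_iff, ha]
  constructor
  · intro H S h1 h2 h3 u v hu hv h4 h5 h6
    obtain ⟨s, h7⟩ := H {a | S (e a).1} ⟨fun a ha b hb => h2 _ _ ha hb, fun a ha => by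
      obtain ⟨s, h7, h8⟩ := h3 _ (e a).2 ha
      exact ⟨e.symm ⟨s, h1 s h7⟩, by simpa using h7, by simpa using h8⟩⟩
      (e.symm ⟨u, hu⟩) (e.symm ⟨v, hv⟩) (by simpa using h4) (by simpa using h5) (by simpa using h6)
    exact ⟨(e s).1, by simpa using h7⟩
  · intro H S ⟨h1, h2⟩ u v hu hv h3
    have k : ∀ a, (∃ b ∈ S, (e b).1 = (e a).1) → a ∈ S := by
      rintro a ⟨b, h4, h5⟩
      rwa [← e.injective (Subtype.ext h5)]
    obtain ⟨_, ⟨s, h4, rfl⟩, h5⟩ := H (fun p => ∃ a ∈ S, (e a).1 = p)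
      (by rintro _ ⟨a, -, rfl⟩; exact (e a).2)
      (by rintro _ _ ⟨a, h4, rfl⟩ ⟨b, h5, rfl⟩; exact h1 a h4 b h5)
      (fun p hp h4 => by
        obtain ⟨s, h5, h6⟩ := h2 (e.symm ⟨p, hp⟩) fun h5 => h4 ⟨_, h5, by simp⟩
        exact ⟨_, ⟨s, h5, rfl⟩, by simpa using h6⟩)
      _ _ (e u).2 (e v).2 (fun h4 => hu (k u h4)) (fun h4 => hv (k v h4)) h3
    exact ⟨s, h4, h5⟩

abbrev At := Bool × ℕ × T3 ℕ
abbrev W := ℕ × At × T3 ℕ

def var (x : ℕ) : At := (false, x, 0, 0, 0)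
def hh (C : T3 ℕ) : At := (true, 0, C)
def inn (a : At) (C : T3 ℕ) : Prop := (a.1 = true ∧ a.2.2 = C) ∨ (a.1 = false ∧ a.2.1 ∈ C.vars)
def BB (φ : List (T3 ℕ)) (a b : At) : Prop := a ≠ b ∧ ∃ C ∈ φ, inn a C ∧ inn b C
def K (C : T3 ℕ) : W := (0, var 0, C)
def X (x : ℕ) : W := (1, var x, 0, 0, 0)
def M (a : At) (C : T3 ℕ) : W := (2, a, C)

instance (a : At) (C : T3 ℕ) : Decidable (inn a C) := by unfold inn; infer_instance
instance (φ : List (T3 ℕ)) (a b : At) : Decidable (BB φ a b) := by unfold BB; infer_instance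

def rel (φ : List (T3 ℕ)) (p q : W) : Prop :=
  (p.1 = 0 ∧ q.1 = 0) ∨ (p.1 = 0 ∧ q.1 = 1 ∧ inn q.2.1 p.2.2) ∨
  (p.1 = 0 ∧ q.1 = 2 ∧ p.2.2 ≠ q.2.2) ∨ (p.1 = 1 ∧ q.1 = 1 ∧ BB φ p.2.1 q.2.1) ∨
  (p.1 = 1 ∧ q.1 = 2 ∧ (inn p.2.1 q.2.2 ∨ BB φ p.2.1 q.2.1)) ∨
  (p.1 = 2 ∧ q.1 = 2 ∧ (p.2.2 ≠ q.2.2 ∨ BB φ p.2.1 q.2.1))

instance (φ : List (T3 ℕ)) (p q : W) : Decidable (rel φ p q) := by unfold rel; infer_instance

def R (φ : List (T3 ℕ)) (p q : W) : Prop := p ≠ q ∧ (rel φ p q ∨ rel φ q p)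

def ats (φ : List (T3 ℕ)) : List At := (φ.flatMap T3.vars).map var ++ φ.map hh

def vs (φ : List (T3 ℕ)) : List W :=
  φ.map K ++ ((φ.flatMap T3.vars).map X ++ (ats φ ×ˢ φ).map fun y => M y.1 y.2)

def es (φ : List (T3 ℕ)) : List (W × W) := (vs φ ×ˢ vs φ).filter fun e => rel φ e.1 e.2

variable {φ : List (T3 ℕ)}

lemma BB.symm {a b : At} (h : BB φ a b) : BB φ b a :=
  let ⟨h1, C, h2, h3, h4⟩ := h; ⟨h1.symm, C, h2, h4, h3⟩

lemma R.symm {p q : W} (h : R φ p q) : R φ q p := ⟨h.1.symm, h.2.symm⟩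

lemma BB_comm {a b : At} : BB φ a b ↔ BB φ b a := ⟨BB.symm, BB.symm⟩

lemma mem_vs {p : W} : p ∈ vs φ ↔ (∃ C ∈ φ, K C = p) ∨ (∃ x, (∃ C ∈ φ, x ∈ C.vars) ∧ X x = p) ∨
    ∃ a C, (a ∈ ats φ ∧ C ∈ φ) ∧ M a C = p := by
  simp only [vs, List.mem_append, List.mem_map, List.mem_flatMap]
  refine or_congr_right (or_congr_right ⟨fun ⟨y, h, e⟩ => ⟨y.1, y.2, List.pair_mem_product.1 h, e⟩,
    fun ⟨a, C, h, e⟩ => ⟨(a, C), List.pair_mem_product.2 h, e⟩⟩)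

lemma KK {C D : T3 ℕ} : R φ (K C) (K D) ↔ C ≠ D := by simp [R, rel, K]
lemma XK {C : T3 ℕ} {x : ℕ} : R φ (X x) (K C) ↔ x ∈ C.vars := by simp [R, rel, K, X, inn, var]
lemma MK {C D : T3 ℕ} {a : At} : R φ (M a D) (K C) ↔ C ≠ D := by simp [R, rel, K, M]
lemma XX {x y : ℕ} : R φ (X x) (X y) ↔ BB φ (var x) (var y) := by
  simp only [R, rel, X, BB_comm (a := var y)]
  simp
  exact fun h => h.1
lemma XM {x : ℕ} {a : At} {C : T3 ℕ} : R φ (X x) (M a C) ↔ x ∈ C.vars ∨ BB φ (var x) a := by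
  simp [R, rel, X, M, inn, var]
lemma MM {a b : At} {C D : T3 ℕ} : R φ (M a C) (M b D) ↔ C ≠ D ∨ BB φ a b := by
  simp only [R, rel, M, BB_comm (a := b), ne_comm (a := D)]
  simp
  rintro (h | h) h1
  exacts [h, absurd h1 h.1]

lemma one_iff (v : ℕ → Bool) (C : T3 ℕ) (h : C.dist) : one3 (v C.1) (v C.2.1) (v C.2.2) = true ↔
    (∃ x ∈ C.vars, v x = true) ∧ ∀ x ∈ C.vars, ∀ y ∈ C.vars, v x = true → v y = true → x = y := by
  obtain ⟨h1, h2, h3⟩ := h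
  cases h4 : v C.1 <;> cases h5 : v C.2.1 <;> cases h6 : v C.2.2 <;>
    simp [one3, T3.vars, h1, h2, h3, h4, h5, h6]

lemma inv {x : ℕ} {C : T3 ℕ} : inn (var x) C ↔ x ∈ C.vars := by simp [inn, var]

lemma sat_not (hd : ∀ C ∈ φ, C.dist) {C D : T3 ℕ} (hC : C ∈ φ) (hD : D ∈ φ)
    (h : ∀ x ∈ C.vars, x ∉ D.vars) (hs : SatR one3 φ) : ¬ TriOn (· ∈ vs φ) (R φ) := by
  obtain ⟨v, hv⟩ := hs
  have hv' := fun C hC => (one_iff v C (hd C hC)).1 (hv C hC)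
  intro H
  obtain ⟨_, ⟨x, -, -, rfl⟩, h1, h2⟩ := H
    (fun p => ∃ x, (∃ C ∈ φ, x ∈ C.vars) ∧ v x = true ∧ X x = p)
    (by rintro _ ⟨x, h1, -, rfl⟩; exact mem_vs.2 (.inr (.inl ⟨x, h1, rfl⟩)))
    (by
      rintro _ _ ⟨x, -, h1, rfl⟩ ⟨y, -, h2, rfl⟩ h3
      obtain ⟨h4, E, h5, h6, h7⟩ := XX.1 h3
      exact h4 (congrArg var ((hv' E h5).2 x (inv.1 h6) y (inv.1 h7) h1 h2)))
    (fun p hp h1 => by
      rcases mem_vs.1 hp with ⟨E, hE, rfl⟩ | ⟨y, ⟨E, hE, hy⟩, rfl⟩ | ⟨a, E, ⟨-, hE⟩, rfl⟩ <;>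
        obtain ⟨x, h2, h3⟩ := (hv' E hE).1 <;> refine ⟨_, ⟨x, ⟨E, hE, h2⟩, h3, rfl⟩, ?_⟩
      · exact XK.2 h2
      · refine XX.2 ⟨fun e => h1 ⟨x, ⟨E, hE, h2⟩, h3, ?_⟩, E, hE, inv.2 h2, inv.2 hy⟩
        rw [X, e, X]
      · exact XM.2 (.inl h2))
    (K C) (K D) (mem_vs.2 (.inl ⟨C, hC, rfl⟩)) (mem_vs.2 (.inl ⟨D, hD, rfl⟩))
    (by simp [K, X]) (by simp [K, X])
    (KK.2 fun e => h C.1 (by simp [T3.vars]) (by simp [← e, T3.vars]))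
  exact h x (XK.1 h1) (XK.1 h2)

def Z (φ : List (T3 ℕ)) (J : T3 ℕ) (p : W) : Prop :=
  p.2.1 ∈ ats φ ∧ ((∃ x, x ∉ J.vars ∧ X x = p) ∨ M p.2.1 J = p)

lemma ZZ {J : T3 ℕ} {p q : W} (hp : Z φ J p) (hq : Z φ J q) : R φ p q ↔ BB φ p.2.1 q.2.1 := by
  rcases hp.2 with ⟨x, h1, rfl⟩ | h1 <;> rcases hq.2 with ⟨y, h2, rfl⟩ | h2
  · exact XX
  · rw [← h2, XM]
    simp [h1, X, M]
  · rw [← h1, BB_comm]
    refine Iff.trans ⟨R.symm, R.symm⟩ ?_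
    rw [XM]
    simp [h2, X, M]
  · rw [← h1, ← h2, MM]
    simp [M]

lemma tri3 {J : T3 ℕ} {p : W} (hp : p ∈ vs φ) :
    p = K J ∨ Z φ J p ∨ (R φ (K J) p ∧ ∀ a, R φ (M a J) p) := by
  rcases mem_vs.1 hp with ⟨E, hE, rfl⟩ | ⟨y, hy, rfl⟩ | ⟨a, E, ⟨ha, -⟩, rfl⟩
  · by_cases h : E = J
    · exact .inl (h ▸ rfl)
    · exact .inr (.inr ⟨KK.2 (Ne.symm h), fun _ => MK.2 h⟩)
  · by_cases h : y ∈ J.vars
    · exact .inr (.inr ⟨(XK.2 h).symm, fun _ => (XM.2 (.inl h)).symm⟩)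
    · refine .inr (.inl ⟨?_, .inl ⟨y, h, rfl⟩⟩)
      exact List.mem_append_left _ (List.mem_map_of_mem (List.mem_flatMap.2 hy))
  · by_cases h : E = J
    · exact .inr (.inl ⟨ha, .inr (h ▸ rfl)⟩)
    · exact .inr (.inr ⟨(MK.2 (Ne.symm h)).symm, fun _ => MM.2 (.inl (Ne.symm h))⟩)

lemma unsat_tri (hd : ∀ C ∈ φ, C.dist) (hs : ¬ SatR one3 φ) : TriOn (· ∈ vs φ) (R φ) := by
  classical
  intro S h1 h2 h3 u v hu hv su sv huv
  by_cases hK : ∃ J ∈ φ, S (K J)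
  · obtain ⟨J, hJ, hS⟩ := hK
    have dom : ∀ z, z ∈ vs φ → Z φ J z → ¬ S z → ∃ s, S s ∧ Z φ J s ∧ BB φ s.2.1 z.2.1 := by
      intro z hz h4 h5
      obtain ⟨s, h6, h7⟩ := h3 z hz h5
      rcases tri3 (J := J) (h1 s h6) with rfl | h8 | h8
      · rcases h4.2 with ⟨x, h9, rfl⟩ | h9
        · exact absurd (XK.1 h7.symm) h9
        · rw [← h9] at h7
          exact absurd rfl (MK.1 h7.symm)
      · exact ⟨s, h6, h8, (ZZ h8 h4).1 h7⟩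
      · exact absurd h8.1 (h2 _ _ hS h6)
    have twin : ∀ s z, S s → Z φ J s → z ∈ vs φ → Z φ J z → s.2.1 = z.2.1 → S z := by
      intro s z h4 h5 h6 h7 h8
      by_contra h9
      obtain ⟨t, a, b, c⟩ := dom z h6 h7 h9
      exact h2 t s a h4 ((ZZ b h5).2 (h8 ▸ c))
    have mv : ∀ a ∈ ats φ, M a J ∈ vs φ ∧ Z φ J (M a J) := fun a ha =>
      ⟨mem_vs.2 (.inr (.inr ⟨a, J, ⟨ha, hJ⟩, rfl⟩)), ha, .inr rfl⟩
    have mix : ∀ z p, z ∈ vs φ → Z φ J z → ¬ S z → (∀ a, R φ (M a J) p) →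
        ∃ s, S s ∧ R φ s z ∧ R φ s p := by
      intro z p h4 h5 h6 h7
      obtain ⟨s, a, b, c⟩ := dom z h4 h5 h6
      have d := mv _ b.1
      exact ⟨_, twin s _ a b d.1 d.2 rfl, (ZZ d.2 h5).2 c, h7 _⟩
    rcases tri3 (J := J) hu with rfl | zu | nu
    · exact absurd hS su
    all_goals rcases tri3 (J := J) hv with rfl | zv | nv
    · exact absurd hS sv
    · obtain ⟨-, I, hI, iu, iv⟩ := (ZZ zu zv).1 huv
      have d := mv (hh I) (List.mem_append_right _ (List.mem_map_of_mem hI))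
      obtain ⟨t, a, b, c⟩ : ∃ t, S t ∧ Z φ J t ∧ inn t.2.1 I := by
        by_cases h4 : S (M (hh I) J)
        · exact ⟨_, h4, d.2, .inl ⟨rfl, rfl⟩⟩
        · obtain ⟨t, a, b, -, I', -, c, c'⟩ := dom _ d.1 d.2 h4
          obtain rfl : I = I' := by simpa [inn, hh, M] using c'
          exact ⟨t, a, b, c⟩
      exact ⟨t, a, (ZZ b zu).2 ⟨fun e => su (twin t u a b hu zu e), I, hI, c, iu⟩,
        (ZZ b zv).2 ⟨fun e => sv (twin t v a b hv zv e), I, hI, c, iv⟩⟩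
    · exact mix u v hu zu su nv.2
    · exact absurd hS sv
    · obtain ⟨s, a, b, c⟩ := mix v u hv zv sv nu.2
      exact ⟨s, a, c, b⟩
    · exact ⟨_, hS, nu.1, nv.1⟩
  · push Not at hK
    have key : ∀ C ∈ φ, (∃ x ∈ C.vars, S (X x)) ∨ ∃ a D, D ∈ φ ∧ C ≠ D ∧ S (M a D) := by
      intro C hC
      obtain ⟨s, h4, h5⟩ := h3 _ (mem_vs.2 (.inl ⟨C, hC, rfl⟩)) (hK C hC)
      rcases mem_vs.1 (h1 s h4) with ⟨E, hE, rfl⟩ | ⟨y, -, rfl⟩ | ⟨a, E, ⟨-, hE⟩, rfl⟩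
      · exact absurd h4 (hK E hE)
      · exact .inl ⟨y, XK.1 h5, h4⟩
      · exact .inr ⟨a, E, hE, MK.1 h5, h4⟩
    refine absurd ⟨fun x => decide (S (X x)), fun C hC =>
      (one_iff (fun x => decide (S (X x))) C (hd C hC)).2
      ⟨?_, fun x hx y hy h4 h5 => ?_⟩⟩ hs
    · rcases key C hC with h4 | ⟨a, D, hD, -, h4⟩
      · simpa using h4
      · rcases key D hD with ⟨x, h5, h6⟩ | ⟨b, E, -, h5, h6⟩
        · exact absurd (XM.2 (.inl h5)) (h2 _ _ h6 h4)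
        · exact absurd (MM.2 (.inl h5)) (h2 _ _ h4 h6)
    · by_contra h6
      exact h2 _ _ (of_decide_eq_true h4) (of_decide_eq_true h5)
        (XX.2 ⟨by simpa [var] using h6, C, hC, inv.2 hx, inv.2 hy⟩)

def pad (φ : List (T3 ℕ)) : List (T3 ℕ) :=
  (3 * φ.length, 3 * φ.length + 1, 3 * φ.length + 2) ::
    (3 * φ.length + 3, 3 * φ.length + 4, 3 * φ.length + 5) :: φ

set_option synthInstance.maxSize 4000 in
lemma hard : NPHard fun a : Gr => ¬ Tri a.G := by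
  refine NPHard.of_one3 (fun φ => mkGr (vs (pad φ)) (es (pad φ))) ?_ fun φ h => ?_
  · have h1 : PT vs := by unfold vs ats K X M var hh T3.vars; fun_prop
    have h2 : PT es := by unfold es rel BB inn T3.vars; fun_prop
    have h3 : PT pad := by unfold pad; fun_prop
    fun_prop
  · rw [tri_mk _ _ (R (pad φ)) fun p hp q hq => by simp [R, es, hp, hq]]
    have hd : ∀ C ∈ pad φ, C.dist := by
      simp only [pad, List.forall_mem_cons]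
      exact ⟨by simp [T3.dist], by simp [T3.dist], fun C hC => (h C hC).1⟩
    have hs : SatR one3 φ ↔ SatR one3 (pad φ) := by
      refine ⟨fun ⟨v, hv⟩ => ⟨fun x => if x < 3 * φ.length then v x else
        decide (x = 3 * φ.length ∨ x = 3 * φ.length + 3), ?_⟩,
        fun ⟨v, hv⟩ => ⟨v, fun C hC => hv C (by simp [pad, hC])⟩⟩
      simp only [pad, List.forall_mem_cons]
      refine ⟨by simp [one3], by simp [one3], fun C hC => ?_⟩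
      have := (h C hC).2
      simp only [T3.vars, List.forall_mem_cons] at this
      simp [this.1, this.2.1, this.2.2.1, hv C hC]
    rw [hs]
    exact ⟨sat_not hd List.mem_cons_self (List.mem_cons_of_mem _ List.mem_cons_self)
      (by simp [T3.vars]), fun h1 => by_contra fun h2 => h1 (unsat_tri hd h2)⟩

lemma np : InNP fun a : Gr => ¬ Tri a.G := by
  refine InNP.of_cert' (fun (a : Gr) (c : List ℕ × ℕ × ℕ) =>
    (∀ x ∈ c.1, ∀ y ∈ c.1, a.adjB x y = false) ∧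
    (∀ x < a.n, x ∈ c.1 ∨ ∃ s ∈ c.1, a.adjB s x = true) ∧ c.2.1 ∉ c.1 ∧ c.2.2 ∉ c.1 ∧
    a.adjB c.2.1 c.2.2 = true ∧ ∀ s ∈ c.1, a.adjB s c.2.1 = false ∨ a.adjB s c.2.2 = false)
    (fun a => size (List.range a.n, a.n, a.n)) (by fun_prop) (by fun_prop) ?_ ?_
  · rintro a ⟨S, u, v⟩ ⟨h1, h2, h3, h4, h5, h6⟩ H
    have hb : ∀ x y, a.adjB x y = true → x < a.n ∧ y < a.n := fun x y h => by
      simp only [Gr.adjB, decide_eq_true_eq] at h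
      exact ⟨h.1, h.2.1⟩
    obtain ⟨s, h7, h8, h9⟩ := H {x | x.1 ∈ S} ((max_iff _ _).2
      ⟨fun x hx y hy e => by simpa [(a.adjB_iff x y).2 e] using h1 x hx y hy, fun x hx => by
        obtain ⟨s, h7, h8⟩ := (h2 x x.2).resolve_left hx
        exact ⟨⟨s, (hb _ _ h8).1⟩, h7, (a.adjB_iff _ _).1 h8⟩⟩)
      ⟨u, (hb _ _ h5).1⟩ ⟨v, (hb _ _ h5).2⟩ h3 h4 ((a.adjB_iff _ _).1 h5)
    have := h6 s h7
    simp [(a.adjB_iff _ _).2 h8, (a.adjB_iff _ _).2 h9] at this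
  · classical
    intro a H
    simp only [Tri, max_iff, not_forall] at H
    obtain ⟨S, ⟨h1, h2⟩, u, v, h3, h4, h5, h6⟩ := H
    have m : ∀ x, x ∈ (List.range a.n).filter (fun x => ∃ y ∈ S, y.1 = x) ↔ ∃ y ∈ S, y.1 = x :=
      fun x => by
        simp only [List.mem_filter, List.mem_range, decide_eq_true_eq, and_iff_right_iff_imp]
        rintro ⟨y, -, rfl⟩
        exact y.2
    have k : ∀ x : Fin a.n, (∃ y ∈ S, y.1 = x.1) → x ∈ S := by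
      rintro x ⟨y, h7, h8⟩
      rwa [← Fin.ext h8]
    refine ⟨((List.range a.n).filter fun x => ∃ y ∈ S, y.1 = x, u.1, v.1), ?_, ?_⟩
    · have := size_sublist (List.filter_sublist (l := List.range a.n)
        (p := fun x => ∃ y ∈ S, y.1 = x))
      have := size_nat_mono u.2.le
      have := size_nat_mono v.2.le
      simp only [size_pair]
      omega
    · simp only [m]
      refine ⟨?_, fun x hx => ?_, fun h => h3 (k u h), fun h => h4 (k v h),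
        (a.adjB_iff _ _).2 h5, ?_⟩
      · rintro _ ⟨x, hx, rfl⟩ _ ⟨y, hy, rfl⟩
        exact Bool.eq_false_iff.2 fun e => h1 x hx y hy ((a.adjB_iff _ _).1 e)
      · by_cases h7 : (⟨x, hx⟩ : Fin a.n) ∈ S
        · exact .inl ⟨_, h7, rfl⟩
        · obtain ⟨s, h8, h9⟩ := h2 _ h7
          exact .inr ⟨s, ⟨s, h8, rfl⟩, (a.adjB_iff _ _).2 h9⟩
      · rintro _ ⟨s, hs, rfl⟩
        by_contra h7
        simp only [not_or, Bool.not_eq_false, Gr.adjB_iff] at h7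
        exact h6 ⟨s, hs, h7⟩

theorem result : NPComplete fun a : Gr => ¬ Tri a.G := ⟨np, hard⟩

end Pool.Agent.Results.MP_679d83_lc.Full
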